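import Mathlib
import Pool.Agent.H537.LX.Pos

set_option autoImplicit false

/-! # Primes at which the Frobenius trace of a quadratic twist lies in a given set -/

namespace Pool.Agent.H537.KT

open Finset Pool.Agent.W406.TW

/-- the primes `p ≤ x` of good reduction -/
noncomputable def G (A B : ℤ) (x : ℕ) : Finset ℕ := by
  classical
  exact (Icc 1 x).filter fun p : ℕ => p.Prime ∧ ¬ ((p : ℤ) ∣ 2 * (4 * A ^ 3 + 27 * B ^ 2))

lemma mem_G {A B : ℤ} {x p : ℕ} : p ∈ G A B x ↔ (1 ≤ p ∧ p ≤ x) ∧ p.Prime ∧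
    ¬ ((p : ℤ) ∣ 2 * (4 * A ^ 3 + 27 * B ^ 2)) := by
  classical
  unfold G
  rw [mem_filter, mem_Icc]

/-- the number of the `p` for which the trace has the property `T` -/
noncomputable def cT (T : ℕ → ℤ → Prop) (A B : ℤ) (x : ℕ) : ℕ := by
  classical
  exact ((G A B x).filter fun p : ℕ => T p (ap A B p)).card

/-- the number of the `p` for which the trace with the opposite sign has the property `T` -/
noncomputable def cN (T : ℕ → ℤ → Prop) (A B : ℤ) (x : ℕ) : ℕ := by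
  classical
  exact ((G A B x).filter fun p : ℕ => T p (-ap A B p)).card

/-- the `p` for which exactly one of the two has the property -/
noncomputable def P1 (T : ℕ → ℤ → Prop) (A B : ℤ) (x : ℕ) : Finset ℕ := by
  classical
  exact (G A B x).filter fun p : ℕ => ¬ (T p (ap A B p) ↔ T p (-ap A B p))

open Classical in
/-- the signs -/
noncomputable def w1 (T : ℕ → ℤ → Prop) (A B : ℤ) (p : ℕ) : ℝ := if T p (ap A B p) then 1 else -1

lemma w1_or (T : ℕ → ℤ → Prop) (A B : ℤ) (p : ℕ) : w1 T A B p = 1 ∨ w1 T A B p = -1 := by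
  classical
  unfold w1
  split_ifs <;> simp

lemma w1_abs (T : ℕ → ℤ → Prop) (A B : ℤ) (p : ℕ) : |w1 T A B p| ≤ 1 := by
  rcases w1_or T A B p with h | h <;> rw [h] <;> norm_num

lemma P1_prop {T : ℕ → ℤ → Prop} {A B : ℤ} {x p : ℕ} (hp : p ∈ P1 T A B x) : p.Prime ∧ p ≠ 2 ∧ p ≤ x := by
  classical
  unfold P1 at hp
  obtain ⟨h, _⟩ := mem_filter.1 hp
  obtain ⟨⟨_, h1⟩, h2, h3⟩ := mem_G.1 h
  refine ⟨h2, ?_, h1⟩
  rintro rfl
  exact h3 (Dvd.intro _ rfl)

open Classical in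
/-- the part of the divisors of `D` -/
noncomputable def RR (T : ℕ → ℤ → Prop) (A B D : ℤ) (x : ℕ) : ℝ :=
  ∑ p ∈ (G A B x).filter (fun p : ℕ => (p : ℤ) ∣ D),
    ((if T p (ap A B p) then (1 : ℝ) else 0) + (if T p (-ap A B p) then 1 else 0))

lemma RR_nonneg (T : ℕ → ℤ → Prop) (A B D : ℤ) (x : ℕ) : 0 ≤ RR T A B D x := by
  classical
  unfold RR
  apply sum_nonneg
  intro p _
  split_ifs <;> norm_num

lemma sum_cT (T : ℕ → ℤ → Prop) (A B : ℤ) (x : ℕ) : ((cT T A B x : ℕ) : ℝ) + cN T A B x =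
    open Classical in ∑ p ∈ G A B x, ((if T p (ap A B p) then (1 : ℝ) else 0) + (if T p (-ap A B p) then 1 else 0)) := by
  classical
  unfold cT cN
  rw [card_filter, card_filter]
  push_cast
  rw [← sum_add_distrib]

/-- the part of the divisors is at most the total number -/
lemma RR_le (T : ℕ → ℤ → Prop) (A B D : ℤ) (x : ℕ) : RR T A B D x ≤ (cT T A B x : ℝ) + cN T A B x := by
  classical
  rw [sum_cT]
  unfold RR
  apply sum_le_sum_of_subset_of_nonneg (filter_subset _ _)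
  intro p _ _
  split_ifs <;> norm_num

lemma RR_le2 (T : ℕ → ℤ → Prop) (A B D : ℤ) (x : ℕ) :
    RR T A B D x ≤ 2 * (((G A B x).filter (fun p : ℕ => (p : ℤ) ∣ D)).card : ℝ) := by
  classical
  unfold RR
  calc _ ≤ ∑ p ∈ (G A B x).filter (fun p : ℕ => (p : ℤ) ∣ D), (2 : ℝ) := by
        apply sum_le_sum
        intro p _
        split_ifs <;> norm_num
    _ = _ := by rw [sum_const, nsmul_eq_mul]; ring

/-- the traces of the twist -/
lemma cT_twist (T : ℕ → ℤ → Prop) (A B D : ℤ) (x : ℕ) :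
    (cT T (A * D ^ 2) (B * D ^ 3) x : ℝ) = open Classical in
      ∑ p ∈ G A B x, if (p : ℤ) ∣ D then (0 : ℝ) else if T p (jacobiSym D p * ap A B p) then 1 else 0 := by
  classical
  have h1 : cT T (A * D ^ 2) (B * D ^ 3) x = ((G A B x).filter (fun p : ℕ =>
      ¬ (p : ℤ) ∣ D ∧ T p ((jacobiSym D p : ℤ) * ap A B p))).card := by
    unfold cT
    congr 1
    ext p
    rw [mem_filter, mem_filter, mem_G, mem_G]
    constructor
    · rintro ⟨⟨hp, hpp, hnd⟩, hap⟩
      have hdisc : 2 * (4 * (A * D ^ 2) ^ 3 + 27 * (B * D ^ 3) ^ 2) =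
        2 * (4 * A ^ 3 + 27 * B ^ 2) * D ^ 6 := by ring
      have hpD : ¬ (p : ℤ) ∣ D := by
        intro h
        apply hnd
        rw [hdisc]
        exact Dvd.dvd.mul_left (dvd_pow h (by norm_num)) _
      have hpd : ¬ (p : ℤ) ∣ 2 * (4 * A ^ 3 + 27 * B ^ 2) := by
        intro h
        apply hnd
        rw [hdisc]
        exact Dvd.dvd.mul_right h _
      have hp2 : p ≠ 2 := by
        rintro rfl
        exact hpd (Dvd.intro _ rfl)
      rw [ap_twist A B D hpp hp2] at hap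
      exact ⟨⟨hp, hpp, hpd⟩, hpD, hap⟩
    · rintro ⟨⟨hp, hpp, hpd⟩, hpD, hap⟩
      have hp2 : p ≠ 2 := by
        rintro rfl
        exact hpd (Dvd.intro _ rfl)
      refine ⟨⟨hp, hpp, ?_⟩, ?_⟩
      · rw [dvd_disc A B D hpp hpD]; exact hpd
      · rw [ap_twist A B D hpp hp2]; exact hap
  rw [h1, card_filter]
  push_cast
  refine sum_congr rfl fun p hp => ?_
  by_cases h : (p : ℤ) ∣ D
  · rw [if_pos h, if_neg (fun h' => h'.1 h)]
  · rw [if_neg h]
    by_cases h' : T p ((jacobiSym D p : ℤ) * ap A B p)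
    · rw [if_pos h', if_pos ⟨h, h'⟩]
    · rw [if_neg h', if_neg (fun h2 => h' h2.2)]

lemma jac_or {p : ℕ} (hpp : p.Prime) (D : ℤ) (hpD : ¬ (p : ℤ) ∣ D) : jacobiSym D p = 1 ∨ jacobiSym D p = -1 := by
  rcases jacobiSym.trichotomy D p with h | h | h
  · exfalso
    have : NeZero p := ⟨hpp.ne_zero⟩
    have h2 := (jacobiSym.eq_zero_iff_not_coprime).1 h
    apply h2
    rw [Int.gcd_comm]
    exact Int.isCoprime_iff_gcd_eq_one.1
      (((Nat.prime_iff_prime_int.1 hpp).coprime_iff_not_dvd).2 hpD)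
  · left; exact h
  · right; exact h

lemma jac_zero {p : ℕ} (hpp : p.Prime) (D : ℤ) (hpD : (p : ℤ) ∣ D) : jacobiSym D p = 0 := by
  by_contra hne
  exact not_dvd_of_jac hpp hne hpD

/-- half of the sum is the deviation -/
lemma dev (T : ℕ → ℤ → Prop) (A B D : ℤ) (x : ℕ) :
    (cT T (A * D ^ 2) (B * D ^ 3) x : ℝ) - (cT T A B x + cN T A B x) / 2 =
      (SD (P1 T A B x) (w1 T A B) (fun p => p) D - RR T A B D x) / 2 := by
  classical
  rw [cT_twist, sum_cT]
  have h1 : SD (P1 T A B x) (w1 T A B) (fun p => p) D = ∑ p ∈ G A B x,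
      if ¬ (T p (ap A B p) ↔ T p (-ap A B p)) then w1 T A B p * (jacobiSym D p : ℝ) else 0 := by
    unfold SD P1
    rw [sum_filter]
  have h2 : RR T A B D x = ∑ p ∈ G A B x, if (p : ℤ) ∣ D then
      ((if T p (ap A B p) then (1 : ℝ) else 0) + (if T p (-ap A B p) then 1 else 0)) else 0 := by
    unfold RR
    rw [sum_filter]
  rw [h1, h2, sum_div, ← sum_sub_distrib, ← sum_sub_distrib, sum_div]
  refine sum_congr rfl fun p hp => ?_
  obtain ⟨_, hpp, _⟩ := mem_G.1 hp
  by_cases hpD : (p : ℤ) ∣ D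
  · rw [if_pos hpD, if_pos hpD, jac_zero hpp D hpD]
    simp
    ring
  · rw [if_neg hpD, if_neg hpD]
    unfold w1
    rcases jac_or hpp D hpD with h | h <;> rw [h] <;>
      by_cases hT : T p (ap A B p) <;> by_cases hT' : T p (-ap A B p) <;>
      simp [hT, hT'] <;> norm_num

end Pool.Agent.H537.KT
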