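import Mathlib
import Pool.Agent.H537.KT.Dev

set_option autoImplicit false

/-! # Traces of almost all quadratic twists in given sets, above the threshold -/

namespace Pool.Agent.H537.KT

open Finset Pool.Agent.W406.TW Pool.Agent.H537.LX

/-- above the threshold -/
theorem above (ε C : ℝ) (hε : 0 < ε) (hC : 1 / (2 * ε) < C) :
    ∃ c : ℝ, 0 < c ∧ ∃ N₀ : ℕ, ∀ N : ℕ, N₀ ≤ N → ∀ A B : ℤ, ∀ T : ℕ → ℕ → ℤ → Prop,
      (∀ t p : ℕ, ∀ a : ℤ, p.Prime → |a| ≤ p → T t p a → 1 ≤ t ∧ t ≤ p) →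
      ({D : ℤ | D ≠ 0 ∧ |D| ≤ N ∧ ∃ x : ℕ, (Real.log N) ^ C ≤ x ∧ (x : ℝ) ≤ (N : ℝ) ^ c ∧
        ∃ t : ℕ, √((cT (T t) A B x : ℝ) + cN (T t) A B x) * (x : ℝ) ^ ε <
          |(cT (T t) (A * D ^ 2) (B * D ^ 3) x : ℝ) - (cT (T t) A B x + cN (T t) A B x) / 2|}.ncard : ℝ) ≤
        (N : ℝ) ^ (1 - c) := by
  classical
  have hC0 : 0 < C := lt_trans (by positivity) hC
  have hCε : 1 < 2 * ε * C := by
    rw [div_lt_iff₀ (by positivity)] at hC
    linarith
  set η : ℝ := ε - 1 / (2 * C) with hηd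
  have hη : 0 < η := by
    rw [hηd, sub_pos, div_lt_iff₀ (by positivity)]
    linarith
  have hη2 : η < 2 * ε := by
    have : 0 < 1 / (2 * C) := by positivity
    rw [hηd]; linarith
  have hCe : 1 < C * (2 * ε - η) := by
    have e : C * (2 * ε - η) = C * ε + 1 / 2 := by
      rw [hηd]
      field_simp
      ring
    rw [e]; linarith
  set c : ℝ := min (1 / 6) (η / 36) with hc
  have hc0 : 0 < c := lt_min (by norm_num) (by positivity)
  have hc1 : c ≤ 1 / 6 := min_le_left _ _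
  have hc2 : c ≤ η / 36 := min_le_right _ _
  -- size of `N`
  have hlim := (Real.tendsto_log_atTop.comp tendsto_natCast_atTop_atTop).eventually_ge_atTop
    (max 3 (12 * Real.log 4 / η))
  have hlim2 := ((tendsto_rpow_atTop (by linarith : 0 < C * (2 * ε - η) - 1)).comp
    (Real.tendsto_log_atTop.comp tendsto_natCast_atTop_atTop)).eventually_ge_atTop (4 : ℝ)
  have hlim3 := ((tendsto_rpow_atTop hC0).comp
    (Real.tendsto_log_atTop.comp tendsto_natCast_atTop_atTop)).eventually_ge_atTop (3 : ℝ)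
  obtain ⟨N₀, hN₀⟩ := Filter.eventually_atTop.1 (((hlim.and hlim2).and hlim3).and
    (Filter.eventually_ge_atTop 1))
  refine ⟨c, hc0, N₀, fun N hN A B T hT => ?_⟩
  obtain ⟨⟨⟨hL, hL2⟩, hL3⟩, hN1⟩ := hN₀ N hN
  simp only [Function.comp_apply] at hL hL2 hL3
  set L : ℝ := Real.log N with hLdef
  have hLL3 : 3 ≤ L := le_trans (le_max_left _ _) hL
  have hL4 : 12 * Real.log 4 / η ≤ L := le_trans (le_max_right _ _) hL
  have hL0 : 0 < L := by linarith
  have hN1' : (1 : ℝ) ≤ N := by exact_mod_cast hN1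
  have hN0 : (0 : ℝ) < N := by linarith
  -- what `x` satisfies
  have hxprop : ∀ x : ℕ, L ^ C ≤ x → 3 ≤ x ∧ 4 * L ≤ (x : ℝ) ^ (2 * ε - η) ∧ 4 * L ≤ (x : ℝ) ^ (2 * ε) := by
    intro x hx
    have h3 : (3 : ℝ) ≤ x := le_trans hL3 hx
    have h1 : 4 * L ≤ (x : ℝ) ^ (2 * ε - η) := by
      calc 4 * L ≤ L ^ (C * (2 * ε - η) - 1) * L := mul_le_mul_of_nonneg_right hL2 hL0.le
        _ = L ^ (C * (2 * ε - η)) := by
            rw [← Real.rpow_add_one hL0.ne']; congr 1; ring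
        _ = (L ^ C) ^ (2 * ε - η) := by rw [Real.rpow_mul hL0.le]
        _ ≤ _ := Real.rpow_le_rpow (by positivity) hx (by linarith)
    refine ⟨by exact_mod_cast h3, h1, le_trans h1 ?_⟩
    exact Real.rpow_le_rpow_of_exponent_le (by linarith) (by linarith)
  set Q : ℝ := 4 * N * Real.exp (-(η / 6 * L)) with hQ
  have hQ0 : 0 ≤ Q := by positivity
  set Y : Finset ℕ := (Icc 1 ⌊(N : ℝ) ^ c⌋₊).filter (fun y => L ^ C ≤ (y : ℝ)) with hY
  set FF : ℕ → ℕ → Finset ℤ := fun y t => (Icc (-(N : ℤ)) N).filter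
    (fun D => √((P1 (T t) A B y).card : ℝ) * (y : ℝ) ^ ε <
      |SD (P1 (T t) A B y) (w1 (T t) A B) (fun p => p) D|) with hFF
  have hone : ∀ y ∈ Y, ∀ t ∈ Icc 1 y, ((FF y t).card : ℝ) ≤ Q := by
    intro y hy t ht
    obtain ⟨hy0, hy1⟩ := mem_filter.1 hy
    obtain ⟨h3, h4, _⟩ := hxprop y hy1
    have hyN : (y : ℝ) ≤ (N : ℝ) ^ c := by
      have := (mem_Icc.1 hy0).2
      exact le_trans (by exact_mod_cast this) (Nat.floor_le (by positivity))
    have hypos : (0 : ℝ) < y := by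
      have : 0 < y := by omega
      exact_mod_cast this
    have hly : Real.log y ≤ c * Real.log N := by
      rw [← Real.log_rpow hN0]
      exact Real.log_le_log hypos hyN
    refine le_trans (one' (P1 (T t) A B y) (w1 (T t) A B) N y ε η c hη hη2 hN1 h3
      (le_trans (by linarith) h4) hly
      (fun p hp => P1_prop hp) (fun p _ => w1_abs (T t) A B p)) ?_
    rw [hQ]
    apply mul_le_mul_of_nonneg_left _ (by positivity)
    apply Real.exp_le_exp.2
    apply neg_le_neg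
    apply mul_le_mul_of_nonneg_right _ hL0.le
    have : (1 : ℝ) / 6 ≤ 1 / 3 - c := by linarith
    calc η / 6 = η * (1 / 6) := by ring
      _ ≤ _ := mul_le_mul_of_nonneg_left this hη.le
  have hYc : (Y.card : ℝ) ≤ (N : ℝ) ^ c := by
    calc (Y.card : ℝ) ≤ ((Icc 1 ⌊(N : ℝ) ^ c⌋₊).card : ℝ) := by exact_mod_cast card_filter_le _ _
      _ = (⌊(N : ℝ) ^ c⌋₊ : ℝ) := by rw [Nat.card_Icc]; simp
      _ ≤ (N : ℝ) ^ c := Nat.floor_le (by positivity)
  have hbig : ((Y.biUnion (fun y => (Icc 1 y).biUnion (fun t => FF y t))).card : ℝ) ≤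
      (N : ℝ) ^ c * ((N : ℝ) ^ c * Q) := by
    calc _ ≤ ∑ y ∈ Y, (((Icc 1 y).biUnion (fun t => FF y t)).card : ℝ) := by
          exact_mod_cast card_biUnion_le
      _ ≤ ∑ y ∈ Y, ((N : ℝ) ^ c * Q) := by
          apply sum_le_sum
          intro y hy
          obtain ⟨hy0, hy1⟩ := mem_filter.1 hy
          have hyN : (y : ℝ) ≤ (N : ℝ) ^ c := by
            have := (mem_Icc.1 hy0).2
            exact le_trans (by exact_mod_cast this) (Nat.floor_le (by positivity))
          calc _ ≤ ∑ t ∈ Icc 1 y, ((FF y t).card : ℝ) := by exact_mod_cast card_biUnion_le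
            _ ≤ ∑ t ∈ Icc 1 y, Q := sum_le_sum fun t ht => hone y hy t ht
            _ = (y : ℝ) * Q := by rw [sum_const, Nat.card_Icc, nsmul_eq_mul]; simp
            _ ≤ _ := mul_le_mul_of_nonneg_right hyN hQ0
      _ = (Y.card : ℝ) * ((N : ℝ) ^ c * Q) := by rw [sum_const, nsmul_eq_mul]
      _ ≤ _ := mul_le_mul_of_nonneg_right hYc (by positivity)
  have hfin : (N : ℝ) ^ c * ((N : ℝ) ^ c * Q) ≤ (N : ℝ) ^ (1 - c) := by
    have e1 : (N : ℝ) ^ c * ((N : ℝ) ^ c * Q) =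
        Real.exp (Real.log 4 + (1 + 2 * c - η / 6) * L) := by
      rw [hQ, Real.rpow_def_of_pos hN0, ← hLdef]
      have e4 : (4 : ℝ) = Real.exp (Real.log 4) := (Real.exp_log (by norm_num)).symm
      have eN : (N : ℝ) = Real.exp L := (Real.exp_log hN0).symm
      calc Real.exp (L * c) * (Real.exp (L * c) * (4 * N * Real.exp (-(η / 6 * L))))
          = Real.exp (L * c) * (Real.exp (L * c) * (Real.exp (Real.log 4) * Real.exp L *
              Real.exp (-(η / 6 * L)))) := by rw [← e4, ← eN]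
        _ = _ := by
            rw [← Real.exp_add, ← Real.exp_add, ← Real.exp_add, ← Real.exp_add]
            congr 1
            ring
    rw [e1, Real.rpow_def_of_pos hN0, ← hLdef]
    apply Real.exp_le_exp.2
    have h9 : Real.log 4 ≤ η / 12 * L := by
      rw [div_le_iff₀ hη] at hL4
      linarith
    nlinarith
  refine le_trans ?_ (le_trans hbig hfin)
  rw [← Set.ncard_coe_finset]
  refine Nat.cast_le.2 (Set.ncard_le_ncard ?_ (Finset.finite_toSet _))
  intro D hD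
  obtain ⟨hD0, hDN, x, hx1, hx2, t, hlt⟩ := hD
  obtain ⟨hx3, _, hx2ε⟩ := hxprop x hx1
  set P := P1 (T t) A B x with hP
  rw [mem_coe, mem_biUnion]
  refine ⟨x, mem_filter.2 ⟨mem_Icc.2 ⟨by omega, Nat.le_floor hx2⟩, hx1⟩, ?_⟩
  rw [mem_biUnion]
  have hx0 : (0 : ℝ) < x := by
    have : 0 < x := by omega
    exact_mod_cast this
  set M : ℝ := (cT (T t) A B x : ℝ) + cN (T t) A B x with hM
  have hM0 : 0 ≤ M := by positivity
  -- at most `M`
  have hPM : (P.card : ℝ) ≤ M := by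
    rw [hM, sum_cT, hP]
    unfold P1
    rw [card_filter]
    push_cast
    apply sum_le_sum
    intro p _
    by_cases h1 : T t p (ap A B p) <;> by_cases h2 : T t p (-ap A B p) <;> simp [h1, h2]
  have hbε : 0 < (x : ℝ) ^ ε := Real.rpow_pos_of_pos hx0 _
  have hdiv : RR (T t) A B D x ≤ √M * (x : ℝ) ^ ε := by
    set j : ℝ := RR (T t) A B D x with hj
    have hj0 : 0 ≤ j := RR_nonneg _ _ _ _ _
    have hjm : j ≤ M := RR_le _ _ _ _ _
    have hjL : j ≤ 4 * L := by
      refine le_trans (RR_le2 _ _ _ _ _) ?_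
      have h1 := few_div (G A B x) (fun p hp => (mem_G.1 hp).2.1) D hD0
      have : Real.log (D.natAbs : ℝ) ≤ L := by
        apply Real.log_le_log
        · have := Int.natAbs_pos.2 hD0
          exact_mod_cast this
        · have : (D.natAbs : ℤ) ≤ N := by rwa [Int.natCast_natAbs]
          exact_mod_cast this
      linarith
    have hsq : j ^ 2 ≤ (√M * (x : ℝ) ^ ε) ^ 2 := by
      rw [mul_pow, Real.sq_sqrt hM0]
      have e : ((x : ℝ) ^ ε) ^ 2 = (x : ℝ) ^ (2 * ε) := by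
        rw [← Real.rpow_natCast, ← Real.rpow_mul hx0.le]
        congr 1
        push_cast
        ring
      rw [e, sq]
      exact mul_le_mul hjm (le_trans hjL hx2ε) hj0 hM0
    exact (abs_le_of_sq_le_sq' hsq (by positivity)).2
  have hbigS : √(P.card : ℝ) * (x : ℝ) ^ ε < |SD P (w1 (T t) A B) (fun p => p) D| := by
    rw [dev (T t) A B D x, ← hP] at hlt
    rw [abs_div, abs_of_pos (by norm_num : (0 : ℝ) < 2), lt_div_iff₀ (by norm_num : (0 : ℝ) < 2)] at hlt
    have h2 := abs_sub (SD P (w1 (T t) A B) (fun p => p) D) (RR (T t) A B D x)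
    have h3 : |RR (T t) A B D x| = RR (T t) A B D x := abs_of_nonneg (RR_nonneg _ _ _ _ _)
    have h4 : √(P.card : ℝ) * (x : ℝ) ^ ε ≤ √M * (x : ℝ) ^ ε :=
      mul_le_mul_of_nonneg_right (Real.sqrt_le_sqrt hPM) hbε.le
    linarith
  have hPn : P.Nonempty := by
    rw [nonempty_iff_ne_empty]
    intro hPe
    rw [hPe] at hbigS
    simp [SD] at hbigS
  obtain ⟨q, hq⟩ := hPn
  have htx : t ∈ Icc 1 x := by
    obtain ⟨hq1, _, hq2⟩ := P1_prop hq
    have h1 := ap_abs A B q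
    have h4 : T t q (ap A B q) ∨ T t q (-ap A B q) := by
      rw [hP] at hq
      unfold P1 at hq
      have := (mem_filter.1 hq).2
      tauto
    have h5 : 1 ≤ t ∧ t ≤ q := by
      rcases h4 with h4 | h4
      · exact hT t q _ hq1 h1 h4
      · exact hT t q _ hq1 (by rwa [abs_neg]) h4
    rw [mem_Icc]
    exact ⟨h5.1, h5.2.trans hq2⟩
  exact ⟨t, htx, mem_filter.2 ⟨mem_Icc.2 (abs_le.1 hDN), hbigS⟩⟩

end Pool.Agent.H537.KT
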