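import Mathlib
import Pool.Agent.H537.KT.Dev
import Pool.Agent.H537.LX.Pat

set_option autoImplicit false

/-! # All patterns of the twisted traces -/

namespace Pool.Agent.H537.KT

open Finset Pool.Agent.W406.TW Pool.Agent.H537.LX

/-- all patterns -/
theorem patt (T : ℕ → ℤ → Prop) (A B : ℤ) (x N : ℕ) (S : Set ℕ)
    (hN : x ^ (12 * (P1 T A B x).card) ≤ N) :
    (N : ℝ) ≤ 256 * 3 ^ (P1 T A B x).card * (({D : ℕ | 1 ≤ D ∧ D ≤ N ∧ Squarefree D ∧
      ∀ p ∈ P1 T A B x, ¬ ((p : ℤ) ∣ D) ∧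
        (T p (ap (A * (D : ℤ) ^ 2) (B * (D : ℤ) ^ 3) p) ↔ p ∈ S)}.ncard : ℕ) : ℝ) := by
  classical
  set P := P1 T A B x with hP
  have hPprop : ∀ p ∈ P, p.Prime ∧ p ≠ 2 := fun p hp => ⟨(P1_prop hp).1, (P1_prop hp).2.1⟩
  set E : Set ℕ := {D : ℕ | 1 ≤ D ∧ D ≤ N ∧ Squarefree D ∧
      ∀ p ∈ P, ¬ ((p : ℤ) ∣ D) ∧
        (T p (ap (A * (D : ℤ) ^ 2) (B * (D : ℤ) ^ 3) p) ↔ p ∈ S)} with hE
  have hfinE : E.Finite := (Set.finite_Icc (1 : ℕ) N).subset fun D hD => ⟨hD.1, hD.2.1⟩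
  set e : ℕ → ℤ := fun p => if (p ∈ S ↔ T p (ap A B p)) then 1 else -1 with he
  have he1 : ∀ p ∈ P, e p = 1 ∨ e p = -1 := by
    intro p _
    rw [he]
    simp only
    split_ifs
    · left; rfl
    · right; rfl
  have hsub : (((sqf N).filter (fun D : ℕ => ∀ p ∈ P, jacobiSym (D : ℤ) p = e p) : Finset ℕ) : Set ℕ) ⊆ E := by
    intro D hD
    rw [mem_coe, mem_filter, sqf, mem_filter, mem_Icc] at hD
    obtain ⟨⟨⟨h1, h2⟩, h3⟩, h4⟩ := hD
    refine ⟨h1, h2, h3, fun p hpP => ?_⟩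
    have hj := h4 p hpP
    have hpp := (hPprop p hpP).1
    have hp2 := (hPprop p hpP).2
    have hj0 : jacobiSym (D : ℤ) p ≠ 0 := by
      rw [hj]
      rcases he1 p hpP with h | h <;> rw [h] <;> norm_num
    have hor : ¬ (T p (ap A B p) ↔ T p (-ap A B p)) := by
      rw [hP] at hpP
      unfold P1 at hpP
      exact (mem_filter.1 hpP).2
    refine ⟨not_dvd_of_jac hpp hj0, ?_⟩
    rw [ap_twist A B D hpp hp2, hj, he]
    simp only
    by_cases hS : (p ∈ S ↔ T p (ap A B p))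
    · rw [if_pos hS, one_mul]
      exact hS.symm
    · rw [if_neg hS, neg_one_mul]
      tauto
  have hcardle : (((sqf N).filter (fun D : ℕ => ∀ p ∈ P, jacobiSym (D : ℤ) p = e p)).card : ℝ) ≤
      ((E.ncard : ℕ) : ℝ) := by
    rw [← Set.ncard_coe_finset]
    exact_mod_cast Set.ncard_le_ncard hsub hfinE
  rcases P.eq_empty_or_nonempty with hPe | hPn
  · -- no primes: all squarefree `D` count
    have hN1 : 1 ≤ N := by
      rw [hPe, card_empty, mul_zero, pow_zero] at hN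
      exact hN
    have h256 : (N : ℝ) ≤ 256 * (((sqf N).filter (fun D : ℕ => ∀ p ∈ P, jacobiSym (D : ℤ) p = e p)).card : ℝ) := by
      have hfil : (sqf N).filter (fun D : ℕ => ∀ p ∈ P, jacobiSym (D : ℤ) p = e p) = sqf N := by
        apply filter_true_of_mem
        intro D _ p hp
        rw [hPe] at hp
        exact absurd hp (notMem_empty _)
      rw [hfil]
      rcases Nat.lt_or_ge N 256 with hlt | hge
      · have h1 : 1 ∈ sqf N := mem_filter.2 ⟨mem_Icc.2 ⟨le_rfl, hN1⟩, squarefree_one⟩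
        have h2 : 1 ≤ (sqf N).card := card_pos.2 ⟨1, h1⟩
        have h3 : (1 : ℝ) ≤ (sqf N).card := by exact_mod_cast h2
        have h4 : (N : ℝ) ≤ 256 := by exact_mod_cast hlt.le
        linarith
      · have h := pattern ∅ (by simp) e (by simp) N (by simpa using hge)
        have h0 : (sqf N).filter (fun D : ℕ => ∀ p ∈ (∅ : Finset ℕ), jacobiSym (D : ℤ) p = e p) = sqf N := by
          apply filter_true_of_mem
          intro D _ p hp
          exact absurd hp (notMem_empty _)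
        rw [h0, card_empty, pow_zero, mul_one] at h
        have : (0 : ℝ) ≤ (sqf N).card := Nat.cast_nonneg _
        linarith
    rw [hPe, card_empty, pow_zero, mul_one]
    rw [hPe] at hcardle h256
    linarith
  · have hq : 256 * (∏ p ∈ P, p) ^ 6 ≤ N := by
      refine le_trans ?_ hN
      have h1 : ∏ p ∈ P, p ≤ x ^ P.card := by
        rw [← prod_const]
        exact prod_le_prod' fun p hp => (P1_prop hp).2.2
      have hm1 : 1 ≤ P.card := hPn.card_pos
      have hx3 : 3 ≤ x := by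
        obtain ⟨p, hp⟩ := hPn
        have h5 := P1_prop hp
        have := h5.1.two_le
        have := h5.2.1
        have := h5.2.2
        omega
      have h256 : 256 ≤ x ^ 6 := by
        calc 256 ≤ 3 ^ 6 := by norm_num
          _ ≤ x ^ 6 := Nat.pow_le_pow_left hx3 6
      calc 256 * (∏ p ∈ P, p) ^ 6 ≤ x ^ 6 * (x ^ P.card) ^ 6 :=
            Nat.mul_le_mul h256 (Nat.pow_le_pow_left h1 6)
        _ = x ^ (6 + P.card * 6) := by rw [← pow_mul, ← pow_add]
        _ ≤ x ^ (12 * P.card) := Nat.pow_le_pow_right (by omega) (by omega)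
    have h := pattern P hPprop e he1 N hq
    have h0 : (0 : ℝ) ≤ (((sqf N).filter (fun D : ℕ => ∀ p ∈ P, jacobiSym (D : ℤ) p = e p)).card : ℝ) :=
      Nat.cast_nonneg _
    have h3 : (0 : ℝ) < 3 ^ P.card := by positivity
    calc (N : ℝ) ≤ 16 * 3 ^ P.card * (((sqf N).filter (fun D : ℕ => ∀ p ∈ P, jacobiSym (D : ℤ) p = e p)).card : ℝ) := h
      _ ≤ 256 * 3 ^ P.card * ((E.ncard : ℕ) : ℝ) := by
          apply mul_le_mul _ hcardle h0 (by positivity)
          nlinarith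

end Pool.Agent.H537.KT
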