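import Mathlib
import Pool.Agent.H537.KT.Abv
import Pool.Agent.H537.KT.Ptt

set_option autoImplicit false

/-! # The range of uniformity -/

namespace Pool.Agent.H537.KT

open Finset Pool.Agent.W406.TW Pool.Agent.H537.LX Filter Topology

/-- the number of the `p` for which both have the property -/
noncomputable def cB (T : ℕ → ℤ → Prop) (A B : ℤ) (x : ℕ) : ℕ := by
  classical
  exact ((G A B x).filter fun p : ℕ => T p (ap A B p) ∧ T p (-ap A B p)).card

lemma P1_le (T : ℕ → ℤ → Prop) (A B : ℤ) (x : ℕ) : ((P1 T A B x).card : ℝ) ≤ (cT T A B x : ℝ) + cN T A B x := by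
  classical
  rw [sum_cT]
  unfold P1
  rw [card_filter]
  push_cast
  apply sum_le_sum
  intro p _
  by_cases h1 : T p (ap A B p) <;> by_cases h2 : T p (-ap A B p) <;> simp [h1, h2]

lemma cT_le_both (T : ℕ → ℤ → Prop) (A B : ℤ) (x y : ℕ) (hy : y ≤ x) (D : ℕ)
    (h : ∀ p ∈ P1 T A B x, ¬ ((p : ℤ) ∣ D) ∧
        (T p (ap (A * (D : ℤ) ^ 2) (B * (D : ℤ) ^ 3) p) ↔ p ∈ (∅ : Set ℕ))) :
    cT T (A * (D : ℤ) ^ 2) (B * (D : ℤ) ^ 3) y ≤ cB T A B y := by
  classical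
  unfold cT cB
  apply card_le_card
  intro p hp
  obtain ⟨hp1, hp2⟩ := mem_filter.1 hp
  obtain ⟨h1, hpp, hnd⟩ := mem_G.1 hp1
  have hdisc : 2 * (4 * (A * (D : ℤ) ^ 2) ^ 3 + 27 * (B * (D : ℤ) ^ 3) ^ 2) =
    2 * (4 * A ^ 3 + 27 * B ^ 2) * (D : ℤ) ^ 6 := by ring
  have hpD : ¬ (p : ℤ) ∣ D := by
    intro h
    apply hnd
    rw [hdisc]
    exact Dvd.dvd.mul_left (dvd_pow h (by norm_num)) _
  have hpd : ¬ (p : ℤ) ∣ 2 * (4 * A ^ 3 + 27 * B ^ 2) := by
    intro h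
    apply hnd
    rw [hdisc]
    exact Dvd.dvd.mul_right h _
  have hpG : p ∈ G A B y := mem_G.2 ⟨h1, hpp, hpd⟩
  have hpGx : p ∈ G A B x := mem_G.2 ⟨⟨h1.1, h1.2.trans hy⟩, hpp, hpd⟩
  have hiff : T p (ap A B p) ↔ T p (-ap A B p) := by
    by_contra hcon
    have hpP : p ∈ P1 T A B x := by
      unfold P1
      exact mem_filter.2 ⟨hpGx, hcon⟩
    have := (h p hpP).2.1 hp2
    exact this
  have hp2' : p ≠ 2 := by
    rintro rfl
    exact hpd (Dvd.intro _ rfl)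
  rw [ap_twist A B D hpp hp2'] at hp2
  refine mem_filter.2 ⟨hpG, ?_⟩
  rcases jac_or hpp D hpD with hj | hj
  · rw [hj, one_mul] at hp2
    exact ⟨hp2, hiff.1 hp2⟩
  · rw [hj, neg_one_mul] at hp2
    exact ⟨hiff.2 hp2, hp2⟩

theorem cor_above (A B : ℤ) (T : ℕ → ℕ → ℤ → Prop)
    (hT : ∀ t p : ℕ, ∀ a : ℤ, p.Prime → |a| ≤ p → T t p a → 1 ≤ t ∧ t ≤ p) (t : ℕ) (K : ℝ) (hK : 0 < K)
    (h : Tendsto (fun x : ℕ => ((cT (T t) A B x : ℝ) + cN (T t) A B x) * Real.log x ^ 2 / x) atTop (𝓝 K))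
    (η : ℝ) (hη : 0 < η) :
    ∃ c : ℝ, 0 < c ∧ ∃ N₀ : ℕ, ∀ N : ℕ, N₀ ≤ N →
      ({D : ℤ | D ≠ 0 ∧ |D| ≤ N ∧ ∃ x : ℕ, (Real.log N) ^ (1 + η) ≤ x ∧ (x : ℝ) ≤ (N : ℝ) ^ c ∧
        η < |(cT (T t) (A * D ^ 2) (B * D ^ 3) x : ℝ) * Real.log x ^ 2 / x - K / 2|}.ncard : ℝ) ≤
      (N : ℝ) ^ (1 - c) := by
  classical
  set ε : ℝ := 1 / (2 + η) with hε
  have hε0 : 0 < ε := by positivity
  have hε4 : ε < 1 / 2 := by
    rw [hε]
    apply one_div_lt_one_div_of_lt (by norm_num)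
    linarith
  have hC : 1 / (2 * ε) < 1 + η := by
    rw [hε]
    have : 1 / (2 * (1 / (2 + η))) = (2 + η) / 2 := by field_simp
    rw [this]; linarith
  obtain ⟨c, hc, N₁, hN₁⟩ := above ε (1 + η) hε0 hC
  -- the size of `x`
  have e1 : ∀ᶠ x : ℕ in atTop, |((cT (T t) A B x : ℝ) + cN (T t) A B x) * Real.log x ^ 2 / x - K| < min η K := by
    have := (Metric.tendsto_nhds.1 h) (min η K) (lt_min hη hK)
    filter_upwards [this] with x hx
    rwa [Real.dist_eq] at hx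
  have e2 : Tendsto (fun x : ℕ => √(2 * K) * (Real.log x / (x : ℝ) ^ (1 / 2 - ε))) atTop (𝓝 0) := by
    have e3 : Tendsto (fun x : ℝ => Real.log x / x ^ (1 / 2 - ε)) atTop (𝓝 0) :=
      (isLittleO_log_rpow_atTop (by linarith : 0 < 1 / 2 - ε)).tendsto_div_nhds_zero
    have e5 : Tendsto (fun x : ℝ => √(2 * K) * (Real.log x / x ^ (1 / 2 - ε))) atTop (𝓝 0) := by
      have := e3.const_mul (√(2 * K))
      rwa [mul_zero] at this
    exact e5.comp tendsto_natCast_atTop_atTop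
  have e6 : ∀ᶠ x : ℕ in atTop, √(2 * K) * (Real.log x / (x : ℝ) ^ (1 / 2 - ε)) < η / 2 :=
    (tendsto_order.1 e2).2 _ (by positivity)
  obtain ⟨x₀, hx₀⟩ := eventually_atTop.1 ((e1.and e6).and (eventually_ge_atTop 2))
  have hlim := ((tendsto_rpow_atTop (by linarith : 0 < 1 + η)).comp
    (Real.tendsto_log_atTop.comp tendsto_natCast_atTop_atTop)).eventually_ge_atTop (x₀ : ℝ)
  obtain ⟨N₂, hN₂⟩ := eventually_atTop.1 hlim
  refine ⟨c, hc, max N₁ N₂, fun N hN => ?_⟩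
  have hLx := hN₂ N (le_trans (le_max_right _ _) hN)
  simp only [Function.comp_apply] at hLx
  refine le_trans (Nat.cast_le.2 (Set.ncard_le_ncard ?_ ?_)) (hN₁ N (le_trans (le_max_left _ _) hN) A B T hT)
  swap
  · exact (Set.finite_Icc (-(N : ℤ)) N).subset fun D hD => abs_le.1 hD.2.1
  intro D hD
  obtain ⟨hD0, hDN, x, hx1, hx2, hlt⟩ := hD
  refine ⟨hD0, hDN, x, hx1, hx2, t, ?_⟩
  have hxx : x₀ ≤ x := by exact_mod_cast le_trans hLx hx1
  obtain ⟨⟨h1, h2⟩, h3⟩ := hx₀ x hxx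
  by_contra hcon
  rw [not_lt] at hcon
  apply absurd hlt
  rw [not_lt]
  set m : ℝ := (cT (T t) A B x : ℝ) + cN (T t) A B x with hm
  have hm0 : 0 ≤ m := by positivity
  set n : ℝ := (cT (T t) (A * D ^ 2) (B * D ^ 3) x : ℝ) with hn
  have hx0 : (0 : ℝ) < x := by
    have : 0 < x := by omega
    exact_mod_cast this
  have hl0 : 0 < Real.log x := Real.log_pos (by exact_mod_cast (by omega : 1 < x))
  -- the size of `m`
  have h1' : |m * Real.log x ^ 2 / x - K| < min η K := h1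
  have hmK : m * Real.log x ^ 2 / x ≤ 2 * K := by
    have := (abs_lt.1 h1').2
    have := min_le_right η K
    linarith
  have herr : √m * (x : ℝ) ^ ε * Real.log x ^ 2 / x ≤ √(2 * K) * (Real.log x / (x : ℝ) ^ (1 / 2 - ε)) := by
    have hm1 : m ≤ 2 * K * x / Real.log x ^ 2 := by
      rw [le_div_iff₀ (by positivity)]
      rwa [div_le_iff₀ hx0] at hmK
    have hm2 : √m ≤ √(2 * K) * √x / Real.log x := by
      calc √m ≤ √(2 * K * x / Real.log x ^ 2) := Real.sqrt_le_sqrt hm1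
        _ = √(2 * K) * √x / Real.log x := by
            rw [Real.sqrt_div (by positivity), Real.sqrt_mul (by positivity), Real.sqrt_sq hl0.le]
    calc √m * (x : ℝ) ^ ε * Real.log x ^ 2 / x
        ≤ (√(2 * K) * √x / Real.log x) * (x : ℝ) ^ ε * Real.log x ^ 2 / x := by
          gcongr
      _ = √(2 * K) * ((√x * (x : ℝ) ^ ε / x) * Real.log x) := by
          field_simp
      _ = _ := by
          have h5 : √(x : ℝ) * (x : ℝ) ^ ε / x = ((x : ℝ) ^ (1 / 2 - ε))⁻¹ := by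
            rw [Real.sqrt_eq_rpow, ← Real.rpow_add hx0, ← Real.rpow_neg hx0.le]
            nth_rewrite 2 [← Real.rpow_one (x : ℝ)]
            rw [← Real.rpow_sub hx0]
            congr 1
            ring
          rw [h5]
          ring
  have hfin : n * Real.log x ^ 2 / x - K / 2 =
      (n - m / 2) * (Real.log x ^ 2 / x) + (m * Real.log x ^ 2 / x - K) / 2 := by ring
  rw [hfin]
  have hlx : 0 < Real.log x ^ 2 / x := by positivity
  calc |(n - m / 2) * (Real.log x ^ 2 / x) + (m * Real.log x ^ 2 / x - K) / 2|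
      ≤ |(n - m / 2) * (Real.log x ^ 2 / x)| + |(m * Real.log x ^ 2 / x - K) / 2| := abs_add_le _ _
    _ = |n - m / 2| * (Real.log x ^ 2 / x) + |m * Real.log x ^ 2 / x - K| / 2 := by
        rw [abs_mul, abs_of_pos hlx, abs_div, abs_of_pos (by norm_num : (0 : ℝ) < 2)]
    _ ≤ √m * (x : ℝ) ^ ε * (Real.log x ^ 2 / x) + η / 2 := by
        apply add_le_add
        · exact mul_le_mul_of_nonneg_right hcon hlx.le
        · have := min_le_left η K
          linarith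
    _ = √m * (x : ℝ) ^ ε * Real.log x ^ 2 / x + η / 2 := by ring
    _ ≤ η / 2 + η / 2 := by linarith
    _ = η := by ring

/-- below `κ log N log log N` -/
theorem cor_below (A B : ℤ) (T : ℕ → ℤ → Prop) (K : ℝ) (hK : 0 < K)
    (h : Tendsto (fun x : ℕ => ((cT T A B x : ℝ) + cN T A B x) * Real.log x ^ 2 / x) atTop (𝓝 K)) :
    ∃ κ : ℝ, 0 < κ ∧ ∀ δ : ℝ, 0 < δ → ∃ N₀ : ℕ, ∀ N : ℕ, N₀ ≤ N →
      (N : ℝ) ^ (1 - δ) ≤ ({D : ℕ | 1 ≤ D ∧ D ≤ N ∧ Squarefree D ∧
        ∀ x : ℕ, (x : ℝ) ≤ κ * (Real.log N * Real.log (Real.log N)) →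
          cT T (A * (D : ℤ) ^ 2) (B * (D : ℤ) ^ 3) x ≤ cB T A B x}.ncard : ℝ) := by
  classical
  set κ : ℝ := 1 / (24 * K) with hκ
  have hκ0 : 0 < κ := by positivity
  refine ⟨κ, hκ0, fun δ hδ => ?_⟩
  have e1 : ∀ᶠ x : ℕ in atTop, |((cT T A B x : ℝ) + cN T A B x) * Real.log x ^ 2 / x - K| < K := by
    have := (Metric.tendsto_nhds.1 h) K hK
    filter_upwards [this] with x hx
    rwa [Real.dist_eq] at hx
  have e2 : ∀ᶠ x : ℕ in atTop, Real.log 3 / 12 * (2 / δ) ≤ Real.log x :=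
    (Real.tendsto_log_atTop.comp tendsto_natCast_atTop_atTop).eventually_ge_atTop _
  obtain ⟨x₀, hx₀⟩ := eventually_atTop.1 ((e1.and e2).and (eventually_ge_atTop 2))
  have hlog := Real.tendsto_log_atTop.comp (tendsto_natCast_atTop_atTop (R := ℝ))
  have hloglog := Real.tendsto_log_atTop.comp hlog
  obtain ⟨N₀, hN₀⟩ := eventually_atTop.1 (((hloglog.eventually_ge_atTop (max 1 (2 / κ))).and
    (hlog.eventually_ge_atTop (max ((x₀ : ℝ) + 1) (max 1 (Real.log 256 * (2 / δ)))))).and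
      (eventually_ge_atTop 1))
  refine ⟨N₀, fun N hN => ?_⟩
  obtain ⟨⟨h1, h2⟩, h3⟩ := hN₀ N hN
  simp only [Function.comp_apply] at h1 h2
  set L : ℝ := Real.log N with hL
  have hLx : (x₀ : ℝ) + 1 ≤ L := le_trans (le_max_left _ _) h2
  have hL1 : 1 ≤ L := le_trans (le_trans (le_max_left _ _) (le_max_right _ _)) h2
  have hL2 : Real.log 256 * (2 / δ) ≤ L := le_trans (le_trans (le_max_right _ _) (le_max_right _ _)) h2
  have hLL1 : 1 ≤ Real.log L := le_trans (le_max_left _ _) h1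
  have hLL2 : 2 / κ ≤ Real.log L := le_trans (le_max_right _ _) h1
  have hL0 : 0 < L := by linarith
  have hN0 : (0 : ℝ) < N := by exact_mod_cast h3
  have hκL : 2 ≤ κ * Real.log L := by
    rw [div_le_iff₀ hκ0] at hLL2
    linarith
  set X : ℕ := ⌊κ * (L * Real.log L)⌋₊ with hX
  have hXle : (X : ℝ) ≤ κ * (L * Real.log L) := Nat.floor_le (by positivity)
  have hXge : L ≤ X := by
    have h4 : κ * (L * Real.log L) < X + 1 := Nat.lt_floor_add_one _
    have h5 : 2 * L ≤ κ * (L * Real.log L) := by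
      calc 2 * L ≤ (κ * Real.log L) * L := mul_le_mul_of_nonneg_right hκL hL0.le
        _ = _ := by ring
    linarith
  have hXx : x₀ ≤ X := by
    have : (x₀ : ℝ) ≤ X := by linarith
    exact_mod_cast this
  obtain ⟨⟨h4, h5⟩, h6⟩ := hx₀ X hXx
  set m : ℝ := (cT T A B X : ℝ) + cN T A B X with hm
  have hm0 : 0 ≤ m := by positivity
  have hX0 : (0 : ℝ) < X := by
    have : 0 < X := by omega
    exact_mod_cast this
  have hl0 : 0 < Real.log X := Real.log_pos (by exact_mod_cast (by omega : 1 < X))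
  have hlX : Real.log L ≤ Real.log X := Real.log_le_log hL0 hXge
  have hmK : m * Real.log X ^ 2 ≤ 2 * K * X := by
    have := (abs_lt.1 h4).2
    have h7 : m * Real.log X ^ 2 / X ≤ 2 * K := by linarith
    rwa [div_le_iff₀ hX0] at h7
  have hmL : 12 * (m * Real.log X) ≤ L := by
    have h7 : (12 * (m * Real.log X)) * Real.log X ≤ L * Real.log X := by
      calc (12 * (m * Real.log X)) * Real.log X = 12 * (m * Real.log X ^ 2) := by ring
        _ ≤ 12 * (2 * K * X) := by linarith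
        _ ≤ 12 * (2 * K * (κ * (L * Real.log L))) := by gcongr
        _ = L * Real.log L := by rw [hκ]; field_simp; ring
        _ ≤ L * Real.log X := mul_le_mul_of_nonneg_left hlX hL0.le
    exact le_of_mul_le_mul_right h7 hl0
  -- the power of `X`
  set M : ℕ := (P1 T A B X).card with hM
  have hMm : (M : ℝ) ≤ m := P1_le T A B X
  have hXN : X ^ (12 * M) ≤ N := by
    have h7 : ((X : ℝ)) ^ (12 * M) ≤ N := by
      have e : (X : ℝ) ^ (12 * M) = Real.exp (((12 * M : ℕ) : ℝ) * Real.log X) := by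
        rw [Real.exp_nat_mul, Real.exp_log hX0]
      rw [e, ← Real.exp_log hN0, ← hL]
      apply Real.exp_le_exp.2
      push_cast
      calc 12 * (M : ℝ) * Real.log X ≤ 12 * m * Real.log X := by gcongr
        _ ≤ L := by linarith
    exact_mod_cast h7
  have key := patt T A B X N ∅ hXN
  rw [← hM] at key
  set E : Set ℕ := {D : ℕ | 1 ≤ D ∧ D ≤ N ∧ Squarefree D ∧
        ∀ x : ℕ, (x : ℝ) ≤ κ * (L * Real.log L) →
          cT T (A * (D : ℤ) ^ 2) (B * (D : ℤ) ^ 3) x ≤ cB T A B x} with hE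
  have hfinE : E.Finite := (Set.finite_Icc (1 : ℕ) N).subset fun D hD => ⟨hD.1, hD.2.1⟩
  have hcard : (({D : ℕ | 1 ≤ D ∧ D ≤ N ∧ Squarefree D ∧
      ∀ p ∈ P1 T A B X, ¬ ((p : ℤ) ∣ D) ∧
        (T p (ap (A * (D : ℤ) ^ 2) (B * (D : ℤ) ^ 3) p) ↔ p ∈ (∅ : Set ℕ))}.ncard : ℕ) : ℝ) ≤
        ((E.ncard : ℕ) : ℝ) := by
    refine Nat.cast_le.2 (Set.ncard_le_ncard ?_ hfinE)
    rintro D ⟨g1, g2, g3, g4⟩
    exact ⟨g1, g2, g3, fun x hx => cT_le_both T A B X x (Nat.le_floor hx) D g4⟩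
  have h3M : (256 : ℝ) * 3 ^ M ≤ (N : ℝ) ^ δ := by
    have e : (256 : ℝ) * 3 ^ M = Real.exp (Real.log 256 + (M : ℝ) * Real.log 3) := by
      rw [Real.exp_add, Real.exp_log (by norm_num), Real.exp_nat_mul, Real.exp_log (by norm_num)]
    rw [e, Real.rpow_def_of_pos hN0, ← hL]
    apply Real.exp_le_exp.2
    have g1 : Real.log 256 ≤ δ / 2 * L := by
      have : Real.log 256 * (2 / δ) * (δ / 2) ≤ L * (δ / 2) := mul_le_mul_of_nonneg_right hL2 (by positivity)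
      have e9 : Real.log 256 * (2 / δ) * (δ / 2) = Real.log 256 := by field_simp
      rw [e9] at this
      linarith
    have hl3 : 0 < Real.log 3 := Real.log_pos (by norm_num)
    have g2 : (M : ℝ) * Real.log 3 ≤ δ / 2 * L := by
      have g3 : Real.log 3 / 12 ≤ δ / 2 * Real.log X := by
        have : Real.log 3 / 12 * (2 / δ) * (δ / 2) ≤ Real.log X * (δ / 2) :=
          mul_le_mul_of_nonneg_right h5 (by positivity)
        have e9 : Real.log 3 / 12 * (2 / δ) * (δ / 2) = Real.log 3 / 12 := by field_simp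
        rw [e9] at this
        linarith
      calc (M : ℝ) * Real.log 3 ≤ m * Real.log 3 := mul_le_mul_of_nonneg_right hMm hl3.le
        _ = 12 * m * (Real.log 3 / 12) := by ring
        _ ≤ 12 * m * (δ / 2 * Real.log X) := mul_le_mul_of_nonneg_left g3 (by positivity)
        _ = δ / 2 * (12 * (m * Real.log X)) := by ring
        _ ≤ δ / 2 * L := mul_le_mul_of_nonneg_left hmL (by positivity)
    linarith
  have hNδ : 0 < (N : ℝ) ^ δ := Real.rpow_pos_of_pos hN0 _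
  have hfin : (N : ℝ) ≤ (N : ℝ) ^ δ * ((E.ncard : ℕ) : ℝ) := by
    refine le_trans key ?_
    exact mul_le_mul h3M hcard (Nat.cast_nonneg _) hNδ.le
  calc (N : ℝ) ^ (1 - δ) = N / (N : ℝ) ^ δ := by rw [Real.rpow_sub hN0, Real.rpow_one]
    _ ≤ ((E.ncard : ℕ) : ℝ) := by
        rw [div_le_iff₀ hNδ]
        linarith

end Pool.Agent.H537.KT
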